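import Pool.Agent.Helper70.MM.Goals2

open MeasureTheory Set Metric

namespace Pool.Agent.Helper4.MM

theorem key (x : ℝ) (hx : 0 ≤ x) : (2 - x) * Real.exp x ≤ 2 + x := by
  have hd : ∀ t : ℝ, HasDerivAt (fun t : ℝ => 2 + t - (2 - t) * Real.exp t)
      (1 - (-1 * Real.exp t + (2 - t) * Real.exp t)) t := by
    intro t
    have h1 : HasDerivAt (fun t : ℝ => 2 + t) 1 t := (hasDerivAt_id t).const_add 2
    have h2 : HasDerivAt (fun t : ℝ => 2 - t) (-1) t := (hasDerivAt_id t).const_sub 2
    exact h1.sub (h2.mul (Real.hasDerivAt_exp t))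
  have hmono : Monotone (fun t : ℝ => 2 + t - (2 - t) * Real.exp t) := by
    apply monotone_of_deriv_nonneg
    · intro t
      exact (hd t).differentiableAt
    · intro t
      rw [(hd t).deriv]
      have h3 : 1 - t ≤ Real.exp (-t) := by
        have := Real.add_one_le_exp (-t)
        linarith
      have h4 : (1 - t) * Real.exp t ≤ Real.exp (-t) * Real.exp t :=
        mul_le_mul_of_nonneg_right h3 (Real.exp_pos t).le
      rw [← Real.exp_add, neg_add_cancel, Real.exp_zero] at h4
      nlinarith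
  have h := hmono hx
  simp only [Real.exp_zero] at h
  linarith

theorem keyA (x : ℝ) (hx : 0 ≤ x) : (x + 2) * (1 - Real.exp (-x)) ≤ 2 * x := by
  have h := key x hx
  have h1 : (2 - x) * Real.exp x * Real.exp (-x) ≤ (2 + x) * Real.exp (-x) :=
    mul_le_mul_of_nonneg_right h (Real.exp_pos _).le
  rw [mul_assoc, ← Real.exp_add, add_neg_cancel, Real.exp_zero] at h1
  nlinarith

theorem edge0 : Pool.Agent.Helper70.MM.EDGE0 := by
  intro l s hl hs hsl
  have hA := keyA s hs
  have hB := keyA (l - s) (by linarith)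
  have hA0 : 0 ≤ 1 - Real.exp (-s) := by
    have : Real.exp (-s) ≤ 1 := Real.exp_le_one_iff.2 (by linarith)
    linarith
  have hB0 : 0 ≤ 1 - Real.exp (-(l - s)) := by
    have : Real.exp (-(l - s)) ≤ 1 := Real.exp_le_one_iff.2 (by linarith)
    linarith
  have hprod : Real.exp (-l) = Real.exp (-s) * Real.exp (-(l - s)) := by
    rw [← Real.exp_add]
    congr 1
    ring
  have hb : 0 ≤ l - s := by linarith
  rw [hprod]
  set p := Real.exp (-s)
  set q := Real.exp (-(l - s))
  have e1 : s * (l - s) * ((1 - p * q) / l) = (s * (l - s) * (1 - p * q)) / l := by ring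
  rw [e1, le_div_iff₀ hl]
  have i1 : (l - s) * (1 - q) * ((s + 2) * (1 - p)) ≤ (l - s) * (1 - q) * (2 * s) :=
    mul_le_mul_of_nonneg_left hA (mul_nonneg hb hB0)
  have i2 : s * (1 - p) * ((l - s + 2) * (1 - q)) ≤ s * (1 - p) * (2 * (l - s)) :=
    mul_le_mul_of_nonneg_left hB (mul_nonneg hs hA0)
  nlinarith

end Pool.Agent.Helper4.MM
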